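import Pool.Agent.N728.QN.Def

/-!
# RES: from FinalN to the results on `x + y = n` (project QN of helper728), by helper273
-/

set_option autoImplicit false

namespace Pool.Agent.N273.QN

open Finset Pool.Agent.N728.QL Pool.Agent.N728.QN

noncomputable section

lemma ff_eq (a b e c x n : ℤ) :
    ff a b e c x (n - x) = (a - b) * x ^ 2 + (b * n + e) * x + c := by
  unfold ff
  ring

/-- an irreducible quadratic polynomial without the fixed divisor `2` is admissible -/
lemma adm_of {a' b' c : ℤ} (ha : a' ≠ 0)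
    (h : Irreducible (Polynomial.C a' * Polynomial.X ^ 2 + Polynomial.C b' * Polynomial.X +
      Polynomial.C c)) (h2 : ∃ x : ℤ, ¬ (2 : ℤ) ∣ a' * x ^ 2 + b' * x + c) :
    Admissible a' b' c := by
  have hd : (Polynomial.C a' * Polynomial.X ^ 2 + Polynomial.C b' * Polynomial.X +
      Polynomial.C c).natDegree = 2 := Polynomial.natDegree_quadratic ha
  have hprim := h.isPrimitive (by rw [hd]; norm_num)
  refine ⟨?_, ?_, ?_⟩
  · obtain ⟨d, hd'⟩ : ∃ d : ℕ, d = Int.gcd (Int.gcd a' b' : ℤ) c := ⟨_, rfl⟩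
    rw [← hd']
    have h1 : (d : ℤ) ∣ (Int.gcd a' b' : ℤ) := by
      rw [hd']
      exact Int.gcd_dvd_left _ _
    have h2 : (d : ℤ) ∣ c := by
      rw [hd']
      exact Int.gcd_dvd_right _ _
    have h3 : (d : ℤ) ∣ a' := h1.trans (Int.gcd_dvd_left _ _)
    have h4 : (d : ℤ) ∣ b' := h1.trans (Int.gcd_dvd_right _ _)
    have h5 := hprim (d : ℤ) (dvd_add (dvd_add
      (Dvd.dvd.mul_right (map_dvd Polynomial.C h3) _)
      (Dvd.dvd.mul_right (map_dvd Polynomial.C h4) _)) (map_dvd Polynomial.C h2))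
    rcases Int.isUnit_iff.1 h5 with h6 | h6 <;> omega
  · rintro ⟨h3, h4⟩
    obtain ⟨x, hx⟩ := h2
    apply hx
    have e : a' * x ^ 2 + b' * x + c = a' * (x * (x - 1)) + (a' + b') * x + c := by ring
    rw [e]
    have h5 : Even (x * (x - 1)) := by
      rcases Int.even_or_odd x with h | h
      · exact h.mul_right _
      · exact (h.sub_odd odd_one).mul_left _
    exact (((h5.mul_left _).add (h3.mul_right _)).add h4).two_dvd
  · rintro ⟨s, hs⟩
    have h3 := (Polynomial.IsPrimitive.Int.irreducible_iff_irreducible_map_cast hprim).1 h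
    have haQ : (a' : ℚ) ≠ 0 := by exact_mod_cast ha
    have hm : (Polynomial.C a' * Polynomial.X ^ 2 + Polynomial.C b' * Polynomial.X +
        Polynomial.C c).map (Int.castRingHom ℚ) = Polynomial.C (a' : ℚ) * Polynomial.X ^ 2 +
        Polynomial.C (b' : ℚ) * Polynomial.X + Polynomial.C (c : ℚ) := by
      simp
    rw [hm] at h3
    have hroot : (Polynomial.C (a' : ℚ) * Polynomial.X ^ 2 +
        Polynomial.C (b' : ℚ) * Polynomial.X + Polynomial.C (c : ℚ)).IsRoot
        ((-b' + s) / (2 * a')) := by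
      rw [Polynomial.IsRoot.def]
      simp only [Polynomial.eval_add, Polynomial.eval_mul, Polynomial.eval_C,
        Polynomial.eval_pow, Polynomial.eval_X]
      have hsQ : (b' : ℚ) ^ 2 - 4 * a' * c = s * s := by exact_mod_cast hs
      field_simp
      linear_combination (-1 : ℚ) * hsQ
    have h4 := Polynomial.degree_eq_one_of_irreducible_of_root h3 hroot
    rw [Polynomial.degree_quadratic haQ] at h4
    exact absurd h4 (by decide)

lemma adm_adm {a b e c n : ℤ} (hab : a ≠ b) (h : AdmN a b e c n) :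
    Admissible (a - b) (b * n + e) c := by
  refine adm_of (sub_ne_zero.2 hab) h.1 ?_
  obtain ⟨x, hx⟩ := h.2 2 Nat.prime_two
  exact ⟨x, by rw [← ff_eq]; exact_mod_cast hx⟩

lemma rep_eq (a b e c n : ℤ) (T : ℕ) : rep a b e c n T = count (a - b) (b * n + e) c T := by
  unfold rep count
  congr 1
  refine Finset.filter_congr fun x _ => ?_
  rw [ff_eq]

lemma ev (A : ℝ) (m : ℕ) : ∃ N0 : ℕ, ∀ N : ℕ, N0 ≤ N →
    A ≤ Real.log N ∧ 4 * Real.log N ^ (2 * m) ≤ N := by
  have h1 := (Real.tendsto_log_atTop.comp (tendsto_natCast_atTop_atTop (R := ℝ))).eventually_ge_atTop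
    A
  have h2 := (Real.isLittleO_pow_log_id_atTop (n := 2 * m)).def (by norm_num : (0 : ℝ) < 1 / 4)
  have h3 := (tendsto_natCast_atTop_atTop (R := ℝ)).eventually h2
  obtain ⟨N0, hN0⟩ := Filter.eventually_atTop.1 (h1.and h3)
  refine ⟨N0, fun N hN => ?_⟩
  obtain ⟨g1, g2⟩ := hN0 N hN
  refine ⟨g1, ?_⟩
  rw [Real.norm_eq_abs, id, Real.norm_eq_abs,
    abs_of_nonneg (show (0 : ℝ) ≤ (N : ℝ) from Nat.cast_nonneg N)] at g2
  have g3 := le_abs_self (Real.log N ^ (2 * m))
  linarith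

/-- the number of the small `n` -/
theorem res {a b e c : ℤ} (h : FinalN (a - b) c) (hb : 1 ≤ b) (hab : a ≠ b) : Res a b e c := by
  classical
  obtain ⟨C1', h⟩ := h
  refine ⟨C1' + 1, fun ε hε => ?_⟩
  have he0 : 0 ≤ |e| := abs_nonneg e
  obtain ⟨s, hs⟩ : ∃ s : ℕ, (s : ℤ) = b + |e| :=
    ⟨(b + |e|).toNat, Int.toNat_of_nonneg (by omega)⟩
  have hs1 : 1 ≤ s := by omega
  have hs0 : (0 : ℝ) < s := by exact_mod_cast hs1
  obtain ⟨κ, hκ, h⟩ := h (ε / (2 * s)) (by positivity)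
  refine ⟨κ, hκ, fun δ hδ C2 => ?_⟩
  obtain ⟨B0, h⟩ := h δ hδ (C2 + 1)
  obtain ⟨N1, hN1⟩ := ev (s + 2 ^ C1') 1
  obtain ⟨N2, hN2⟩ := exists_nat_ge (2 * (s : ℝ) / ε)
  refine ⟨max (max B0 N1) (max N2 1), ?_⟩
  intro N hN T hT1 hT2
  have hNB : B0 ≤ N := (le_max_left _ _).trans ((le_max_left _ _).trans hN)
  have hNN1 : N1 ≤ N := (le_max_right _ _).trans ((le_max_left _ _).trans hN)
  have hNN2 : N2 ≤ N := (le_max_left _ _).trans ((le_max_right _ _).trans hN)
  have hN1' : 1 ≤ N := (le_max_right _ _).trans ((le_max_right _ _).trans hN)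
  obtain ⟨hL, -⟩ := hN1 N hNN1
  have hNpos : (0 : ℝ) < N := by exact_mod_cast hN1'
  have hNge : (1 : ℝ) ≤ N := by exact_mod_cast hN1'
  have h2C : (1 : ℝ) ≤ 2 ^ C1' := one_le_pow₀ (by norm_num)
  have hLs : (s : ℝ) ≤ Real.log N := by linarith
  have hL2 : (2 : ℝ) ^ C1' ≤ Real.log N := by linarith
  have hL0 : 0 ≤ Real.log N := by linarith
  have hsN : (s : ℝ) ≤ N := by
    have := Real.log_le_sub_one_of_pos hNpos
    linarith
  obtain ⟨B, hB⟩ : ∃ B : ℕ, (B : ℤ) = b * N + |e| :=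
    ⟨(b * N + |e|).toNat, Int.toNat_of_nonneg (by positivity)⟩
  have hNBZ : (N : ℤ) ≤ B := by
    rw [hB]
    nlinarith [(Nat.cast_nonneg N : (0 : ℤ) ≤ N)]
  have hNB' : N ≤ B := by exact_mod_cast hNBZ
  have hNBr : (N : ℝ) ≤ B := by exact_mod_cast hNB'
  have hBs : (B : ℝ) ≤ s * N := by
    have : (B : ℤ) ≤ s * N := by
      rw [hB, hs]
      have : (1 : ℤ) ≤ N := by exact_mod_cast hN1'
      nlinarith
    exact_mod_cast this
  have hBpos : (0 : ℝ) < B := lt_of_lt_of_le hNpos hNBr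
  have hlog1 : Real.log N ≤ Real.log B := Real.log_le_log hNpos hNBr
  have hlog2 : Real.log B ≤ 2 * Real.log N := by
    have h1 : (B : ℝ) ≤ (N : ℝ) ^ 2 := by
      refine hBs.trans ?_
      rw [sq]
      exact mul_le_mul_of_nonneg_right hsN hNpos.le
    have h2 := Real.log_le_log hBpos h1
    rwa [Real.log_pow, Nat.cast_two] at h2
  have hT0 : (0 : ℝ) ≤ T := Nat.cast_nonneg _
  have c1 : (B : ℝ) ≤ T * Real.log B ^ (C2 + 1) := by
    calc (B : ℝ) ≤ s * N := hBs
      _ ≤ Real.log N * (T * Real.log N ^ C2) := mul_le_mul hLs hT1 hNpos.le hL0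
      _ = T * Real.log N ^ (C2 + 1) := by rw [pow_succ]; ring
      _ ≤ _ := mul_le_mul_of_nonneg_left (pow_le_pow_left₀ hL0 hlog1 _) hT0
  have c2 : (T : ℝ) * Real.log B ^ C1' ≤ B := by
    calc (T : ℝ) * Real.log B ^ C1' ≤ T * (2 * Real.log N) ^ C1' :=
          mul_le_mul_of_nonneg_left (pow_le_pow_left₀ (hL0.trans hlog1) hlog2 _) hT0
      _ = 2 ^ C1' * (T * Real.log N ^ C1') := by rw [mul_pow]; ring
      _ ≤ Real.log N * (T * Real.log N ^ C1') :=
          mul_le_mul_of_nonneg_right hL2 (by positivity)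
      _ = T * Real.log N ^ (C1' + 1) := by rw [pow_succ]; ring
      _ ≤ N := hT2
      _ ≤ B := hNBr
  have hfin := h B (hNB.trans hNB') T c1 c2
  set S' := (Icc 1 B).filter (fun b_1 : ℕ => Admissible (a - b) b_1 c ∧
    ¬ ∃ K : ℝ, IsC (a - b) b_1 c K ∧ κ ≤ K ∧
      |(count (a - b) b_1 c T : ℝ) - 2 * K * ∑ t ∈ Icc 1 T,
        1 / Real.log (((a - b) * (t : ℤ) ^ 2 + b_1 * t + c : ℤ) : ℝ)| ≤
        δ * (T / Real.log T)) with hS'
  set S := (Icc 1 N).filter (fun n : ℕ => AdmN a b e c n ∧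
    ¬ ∃ K : ℝ, IsC (a - b) (b * n + e) c K ∧ κ ≤ K ∧
      |(rep a b e c n T : ℝ) - 2 * K * ∑ x ∈ Icc 1 T,
        1 / Real.log ((ff a b e c x ((n : ℤ) - x) : ℤ) : ℝ)| ≤ δ * (T / Real.log T)) with hS
  have hsub : S ⊆ Icc 1 e.natAbs ∪ S.filter (fun n : ℕ => 1 ≤ b * (n : ℤ) + e) := by
    intro n hn
    rw [mem_union, mem_filter, mem_Icc]
    have hn1 : 1 ≤ n := (mem_Icc.1 (mem_filter.1 hn).1).1
    by_cases h1 : 1 ≤ b * (n : ℤ) + e
    · exact Or.inr ⟨hn, h1⟩
    · left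
      refine ⟨hn1, ?_⟩
      push Not at h1
      have h2 : (n : ℤ) ≤ b * n := by nlinarith [(Nat.cast_nonneg n : (0 : ℤ) ≤ n)]
      omega
  have hinj : (S.filter (fun n : ℕ => 1 ≤ b * (n : ℤ) + e)).card ≤ S'.card := by
    refine Finset.card_le_card_of_injOn (fun n : ℕ => (b * (n : ℤ) + e).toNat) ?_ ?_
    · intro n hn
      rw [Finset.mem_coe, mem_filter, hS, mem_filter, mem_Icc] at hn
      obtain ⟨⟨⟨hn1, hnN⟩, hadm, hK⟩, hpos⟩ := hn
      have hc : (((b * (n : ℤ) + e).toNat : ℕ) : ℤ) = b * n + e :=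
        Int.toNat_of_nonneg (by omega)
      rw [Finset.mem_coe, hS', mem_filter, mem_Icc]
      refine ⟨⟨?_, ?_⟩, ?_, ?_⟩
      · have : (1 : ℤ) ≤ ((b * (n : ℤ) + e).toNat : ℕ) := by rw [hc]; exact hpos
        exact_mod_cast this
      · have : (((b * (n : ℤ) + e).toNat : ℕ) : ℤ) ≤ B := by
          rw [hc, hB]
          have h3 : b * (n : ℤ) ≤ b * N :=
            mul_le_mul_of_nonneg_left (by exact_mod_cast hnN) (by omega)
          have h4 := le_abs_self e
          omega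
        exact_mod_cast this
      · rw [hc]
        exact adm_adm hab hadm
      · rw [hc]
        rintro ⟨K, hK1, hK2, hK3⟩
        apply hK
        refine ⟨K, hK1, hK2, ?_⟩
        rw [rep_eq]
        simp only [ff_eq]
        exact hK3
    · intro n hn n' hn' hnn
      have h1 := (mem_filter.1 hn).2
      have h2 := (mem_filter.1 hn').2
      have h3 : (b * (n : ℤ) + e).toNat = (b * (n' : ℤ) + e).toNat := hnn
      have h4 : b * (n : ℤ) + e = b * (n' : ℤ) + e := by omega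
      have h5 : b * (n : ℤ) = b * (n' : ℤ) := by omega
      have h6 : (n : ℤ) = n' := mul_left_cancel₀ (by omega) h5
      exact_mod_cast h6
  have hcard : S.card ≤ e.natAbs + S'.card := by
    refine (card_le_card hsub).trans ((card_union_le _ _).trans ?_)
    rw [Nat.card_Icc]
    have : e.natAbs + 1 - 1 = e.natAbs := by omega
    rw [this]
    exact Nat.add_le_add_left hinj _
  have hes : (e.natAbs : ℝ) ≤ s := by
    have : e.natAbs ≤ s := by
      have h1 := Int.abs_eq_natAbs e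
      omega
    exact_mod_cast this
  have hcardR : (S.card : ℝ) ≤ e.natAbs + S'.card := by exact_mod_cast hcard
  have hsε : (s : ℝ) ≤ ε / 2 * N := by
    have h1 : 2 * (s : ℝ) / ε ≤ N := hN2.trans (by exact_mod_cast hNN2)
    rw [div_le_iff₀ hε] at h1
    linarith
  have hB2 : ε / (2 * s) * B ≤ ε / 2 * N := by
    calc ε / (2 * s) * B ≤ ε / (2 * s) * (s * N) :=
          mul_le_mul_of_nonneg_left hBs (by positivity)
      _ = ε / 2 * N := by field_simp
  calc (S.card : ℝ) ≤ e.natAbs + S'.card := hcardR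
    _ ≤ ε / 2 * N + ε / 2 * N := add_le_add (hes.trans hsε) (hfin.trans hB2)
    _ = ε * N := by ring

/-- the qualitative form -/
theorem cor {a b e c : ℤ} (h : Res a b e c) (hb : 1 ≤ b) : Cor a b e c := by
  classical
  obtain ⟨C1, h⟩ := h
  intro ε hε
  obtain ⟨κ, hκ, h⟩ := h (ε / 2) (by positivity)
  obtain ⟨N0, h⟩ := h (κ / 6) (by positivity) (C1 + 3)
  obtain ⟨m, hm⟩ : ∃ m, m = C1 + 2 := ⟨_, rfl⟩
  obtain ⟨s, hs⟩ : ∃ s : ℕ, (s : ℤ) = 3 * (|a - b| + b + |e| + |c|) + 4 :=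
    ⟨(3 * (|a - b| + b + |e| + |c|) + 4).toNat, Int.toNat_of_nonneg (by positivity)⟩
  obtain ⟨N1, hN1⟩ := ev (s + 2 / ε) m
  refine ⟨max (max N0 N1) 1, ?_⟩
  intro N hN
  have hNN0 : N0 ≤ N := (le_max_left _ _).trans ((le_max_left _ _).trans hN)
  have hNN1 : N1 ≤ N := (le_max_right _ _).trans ((le_max_left _ _).trans hN)
  have hN1' : 1 ≤ N := (le_max_right _ _).trans hN
  obtain ⟨hL, hLN⟩ := hN1 N hNN1
  obtain ⟨L, hLd⟩ : ∃ L : ℝ, L = Real.log N := ⟨_, rfl⟩
  rw [← hLd] at hL hLN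
  have hNpos : (0 : ℝ) < N := by exact_mod_cast hN1'
  have hs4 : (4 : ℝ) ≤ s := by
    have : (4 : ℤ) ≤ s := by
      rw [hs]
      have := abs_nonneg (a - b)
      have := abs_nonneg e
      have := abs_nonneg c
      linarith
    exact_mod_cast this
  have h2ε : 0 < 2 / ε := by positivity
  have hLs : (s : ℝ) ≤ L := by linarith
  have hL4 : 4 ≤ L := hs4.trans hLs
  have hL1 : 1 ≤ L := by linarith
  have hL0 : 0 < L := by linarith
  have hLm : 0 < L ^ m := by positivity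
  -- the length
  obtain ⟨T, hT⟩ : ∃ T : ℕ, T = ⌊(N : ℝ) / L ^ m⌋₊ := ⟨_, rfl⟩
  have hTle : (T : ℝ) ≤ N / L ^ m := by
    rw [hT]
    exact Nat.floor_le (by positivity)
  have hLm2 : L ^ m * L ^ m = L ^ (2 * m) := by rw [← pow_add, two_mul]
  have hLm1 : 1 ≤ L ^ m := one_le_pow₀ hL1
  have hTge : (N : ℝ) / (2 * L ^ m) ≤ T := by
    have h1 : (N : ℝ) / L ^ m < T + 1 := by
      rw [hT]
      exact Nat.lt_floor_add_one _
    have h2 : (N : ℝ) / L ^ m = 2 * (N / (2 * L ^ m)) := by field_simp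
    have h3 : 1 ≤ (N : ℝ) / (2 * L ^ m) := by
      rw [le_div_iff₀ (by positivity)]
      nlinarith
    linarith
  have hT2 : (N : ℝ) ≤ (T : ℝ) ^ 2 := by
    have h1 : ((N : ℝ) / (2 * L ^ m)) ^ 2 ≤ (T : ℝ) ^ 2 :=
      pow_le_pow_left₀ (by positivity) hTge 2
    refine le_trans ?_ h1
    rw [div_pow, le_div_iff₀ (by positivity)]
    have h2 : (2 * L ^ m) ^ 2 = 4 * L ^ (2 * m) := by rw [← hLm2]; ring
    rw [h2]
    nlinarith
  have hTpos : (0 : ℝ) < T := lt_of_lt_of_le (by positivity) hTge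
  have c1 : (N : ℝ) ≤ T * Real.log N ^ (C1 + 3) := by
    rw [← hLd]
    have e1 : L ^ (C1 + 3) = L ^ m * L := by rw [hm, ← pow_succ]
    rw [e1]
    calc (N : ℝ) = N / (2 * L ^ m) * (L ^ m * 2) := by field_simp
      _ ≤ T * (L ^ m * L) := by
          apply mul_le_mul hTge _ (by positivity) hTpos.le
          exact mul_le_mul_of_nonneg_left (by linarith) hLm.le
  have hLC : L ^ m = L ^ C1 * L ^ 2 := by rw [hm, pow_add]
  have c2 : (T : ℝ) * Real.log N ^ C1 ≤ N := by
    rw [← hLd]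
    calc (T : ℝ) * L ^ C1 ≤ N / L ^ m * L ^ C1 :=
          mul_le_mul_of_nonneg_right hTle (by positivity)
      _ = N / L ^ 2 := by
          rw [hLC]
          field_simp
      _ ≤ N := div_le_self hNpos.le (one_le_pow₀ hL1)
  have hTL2 : (T : ℝ) ≤ N / L ^ 2 := by
    refine hTle.trans ?_
    rw [hLC]
    apply div_le_div_of_nonneg_left hNpos.le (by positivity)
    exact le_mul_of_one_le_left (by positivity) (one_le_pow₀ hL1)
  have hfin := h N hNN0 T c1 c2
  set S := (Icc 1 N).filter (fun n : ℕ => AdmN a b e c n ∧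
    ¬ ∃ K : ℝ, IsC (a - b) (b * n + e) c K ∧ κ ≤ K ∧
      |(rep a b e c n T : ℝ) - 2 * K * ∑ x ∈ Icc 1 T,
        1 / Real.log ((ff a b e c x ((n : ℤ) - x) : ℤ) : ℝ)| ≤ κ / 6 * (T / Real.log T)) with hS
  -- sizes
  have hNL : L ≤ N / (3 * L) := by
    rw [le_div_iff₀ (by positivity)]
    have h1 : L ^ 2 ≤ L ^ (2 * m) := pow_le_pow_right₀ hL1 (by omega)
    nlinarith
  have hsub : (Icc 1 N).filter (fun n : ℕ => AdmN a b e c n ∧
      ¬ ∃ x y : ℕ, 1 ≤ x ∧ 1 ≤ y ∧ x + y = n ∧ (ff a b e c x y).natAbs.Prime) ⊆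
      S ∪ Icc 1 ⌊(N : ℝ) / L⌋₊ := by
    intro n hn
    rw [mem_filter, mem_Icc] at hn
    obtain ⟨⟨hn1, hnN⟩, hadm, hno⟩ := hn
    rw [mem_union]
    by_contra hcon
    push Not at hcon
    obtain ⟨hnS, hnbig⟩ := hcon
    rw [hS, mem_filter, mem_Icc] at hnS
    push Not at hnS
    obtain ⟨K, -, hκK, hK⟩ := hnS ⟨hn1, hnN⟩ hadm
    have hnR : (N : ℝ) / L < n := by
      rw [mem_Icc] at hnbig
      push Not at hnbig
      exact (Nat.floor_lt (by positivity)).1 (hnbig hn1)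
    have hnNR : (n : ℝ) ≤ N := by exact_mod_cast hnN
    -- `T < n`
    have hTn : T < n := by
      have h1 : (T : ℝ) < n := by
        refine lt_of_le_of_lt (hTL2.trans ?_) hnR
        apply div_le_div_of_nonneg_left hNpos.le hL0
        nlinarith
      exact_mod_cast h1
    have hNL3 : (N : ℝ) / L = 3 * (N / (3 * L)) := by field_simp
    -- the constants
    have ha0 : (0 : ℝ) ≤ |(a : ℝ) - b| := abs_nonneg _
    have he0 : (0 : ℝ) ≤ |(e : ℝ)| := abs_nonneg _
    have hc0 : (0 : ℝ) ≤ |(c : ℝ)| := abs_nonneg _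
    have hbR : (1 : ℝ) ≤ b := by exact_mod_cast hb
    have hsR : (s : ℝ) = 3 * (|(a : ℝ) - b| + b + |(e : ℝ)| + |(c : ℝ)|) + 4 := by
      have h1 : ((s : ℤ) : ℝ) = ((3 * (|a - b| + b + |e| + |c|) + 4 : ℤ) : ℝ) := by rw [hs]
      push_cast at h1
      exact h1
    have haT : |(a : ℝ) - b| * T ≤ N / (3 * L) := by
      calc |(a : ℝ) - b| * T ≤ (L / 3) * (N / L ^ 2) := by
            apply mul_le_mul _ hTL2 hTpos.le (by positivity)
            linarith
        _ = N / (3 * L) := by field_simp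
    have hval : ∀ x : ℕ, 1 ≤ x → x ≤ T →
        (2 : ℝ) ≤ ((ff a b e c x ((n : ℤ) - x) : ℤ) : ℝ) ∧
          ((ff a b e c x ((n : ℤ) - x) : ℤ) : ℝ) ≤ (N : ℝ) ^ 3 := by
      intro x hx1 hxT
      have hxR : (1 : ℝ) ≤ x := by exact_mod_cast hx1
      have hxT' : (x : ℝ) ≤ T := by exact_mod_cast hxT
      have hxN : (x : ℝ) ≤ N := by
        have : (T : ℝ) < n := by exact_mod_cast hTn
        linarith
      have e1 : ((ff a b e c x ((n : ℤ) - x) : ℤ) : ℝ) =
          x * (((a : ℝ) - b) * x + (b * n + e)) + c := by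
        rw [ff_eq]
        push_cast
        ring
      rw [e1]
      have hax : |((a : ℝ) - b) * x| ≤ |(a : ℝ) - b| * T := by
        rw [abs_mul, Nat.abs_cast]
        exact mul_le_mul_of_nonneg_left hxT' ha0
      have hax1 := neg_abs_le (((a : ℝ) - b) * x)
      have hax2 := le_abs_self (((a : ℝ) - b) * x)
      have he1 := neg_abs_le (e : ℝ)
      have he2 := le_abs_self (e : ℝ)
      have hc1 := neg_abs_le (c : ℝ)
      have hc2 := le_abs_self (c : ℝ)
      have hn0 : (0 : ℝ) ≤ n := Nat.cast_nonneg _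
      have hbn : (n : ℝ) ≤ b * n := by nlinarith
      have heL : |(e : ℝ)| ≤ N / (3 * L) := by
        refine le_trans ?_ hNL
        linarith
      have hcL : |(c : ℝ)| + 2 ≤ N / (3 * L) := by
        refine le_trans ?_ hNL
        linarith
      constructor
      · have hw : |(c : ℝ)| + 2 ≤ ((a : ℝ) - b) * x + (b * n + e) := by
          linarith
        have hw0 : 0 ≤ ((a : ℝ) - b) * x + (b * n + e) := by linarith
        nlinarith
      · have hNge : (1 : ℝ) ≤ N := by exact_mod_cast hN1'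
        have haN : |((a : ℝ) - b) * x| ≤ |(a : ℝ) - b| * N := by
          rw [abs_mul, Nat.abs_cast]
          exact mul_le_mul_of_nonneg_left hxN ha0
        have hbN : (b : ℝ) * n ≤ b * N := mul_le_mul_of_nonneg_left hnNR (by linarith)
        have hsN : |(a : ℝ) - b| + b + |(e : ℝ)| + |(c : ℝ)| ≤ N := by
          have := Real.log_le_sub_one_of_pos hNpos
          rw [← hLd] at this
          linarith
        have hw : ((a : ℝ) - b) * x + (b * n + e) ≤ (|(a : ℝ) - b| + b + |(e : ℝ)|) * N := by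
          nlinarith
        have hw0 : 0 ≤ (|(a : ℝ) - b| + b + |(e : ℝ)|) * N := by positivity
        calc (x : ℝ) * (((a : ℝ) - b) * x + (b * n + e)) + c
            ≤ N * ((|(a : ℝ) - b| + b + |(e : ℝ)|) * N) + |(c : ℝ)| := by
              apply add_le_add _ hc2
              exact (mul_le_mul_of_nonneg_left hw (by linarith)).trans
                (mul_le_mul_of_nonneg_right hxN hw0)
          _ ≤ (|(a : ℝ) - b| + b + |(e : ℝ)| + |(c : ℝ)|) * (N : ℝ) ^ 2 := by
              nlinarith [mul_nonneg hc0 (by nlinarith : (0 : ℝ) ≤ (N : ℝ) ^ 2 - 1)]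
          _ ≤ N * (N : ℝ) ^ 2 := mul_le_mul_of_nonneg_right hsN (by positivity)
          _ = (N : ℝ) ^ 3 := by ring
    -- the sum
    have hsum : (T : ℝ) / (3 * L) ≤ ∑ x ∈ Icc 1 T,
        1 / Real.log ((ff a b e c x ((n : ℤ) - x) : ℤ) : ℝ) := by
      have h1 : ∑ _x ∈ Icc 1 T, 1 / (3 * L) = (T : ℝ) / (3 * L) := by
        rw [Finset.sum_const, Nat.card_Icc, nsmul_eq_mul]
        have : T + 1 - 1 = T := by omega
        rw [this]
        ring
      rw [← h1]
      refine Finset.sum_le_sum fun x hx => ?_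
      rw [mem_Icc] at hx
      obtain ⟨g1, g2⟩ := hval x hx.1 hx.2
      have g3 : 0 < Real.log ((ff a b e c x ((n : ℤ) - x) : ℤ) : ℝ) := Real.log_pos (by linarith)
      have g4 : Real.log ((ff a b e c x ((n : ℤ) - x) : ℤ) : ℝ) ≤ 3 * L := by
        have := Real.log_le_log (by linarith) g2
        rw [Real.log_pow, ← hLd] at this
        exact_mod_cast this
      exact one_div_le_one_div_of_le g3 g4
    have hlogT : L / 2 ≤ Real.log T := by
      have h1 := Real.log_le_log hNpos hT2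
      rw [Real.log_pow, ← hLd] at h1
      push_cast at h1
      linarith
    have hTlog : (T : ℝ) / Real.log T ≤ 2 * (T / L) := by
      calc (T : ℝ) / Real.log T ≤ T / (L / 2) :=
            div_le_div_of_nonneg_left hTpos.le (by linarith) hlogT
        _ = 2 * (T / L) := by field_simp
    have hTL : 0 < (T : ℝ) / L := by positivity
    have hrep : 0 < (rep a b e c n T : ℝ) := by
      have h1 := (abs_le.1 hK).1
      have h2 : κ * (T / (3 * L)) ≤ K * ∑ x ∈ Icc 1 T,
          1 / Real.log ((ff a b e c x ((n : ℤ) - x) : ℤ) : ℝ) :=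
        mul_le_mul hκK hsum (by positivity) (by linarith)
      have h3 : κ / 6 * (T / Real.log T) ≤ κ / 6 * (2 * (T / L)) :=
        mul_le_mul_of_nonneg_left hTlog (by positivity)
      have h4 : κ * ((T : ℝ) / (3 * L)) = κ * (T / L) / 3 := by field_simp
      have h5 : 0 < κ * ((T : ℝ) / L) := by positivity
      linarith
    have hrep' : 0 < rep a b e c n T := by exact_mod_cast hrep
    obtain ⟨x, hx⟩ := Finset.card_pos.1 hrep'
    rw [mem_filter, mem_Icc] at hx
    obtain ⟨⟨hx1, hxT⟩, hxp⟩ := hx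
    apply hno
    refine ⟨x, n - x, hx1, by omega, by omega, ?_⟩
    have e1 : ((n - x : ℕ) : ℤ) = (n : ℤ) - x := by omega
    rw [e1]
    have hpos : 0 < (ff a b e c x ((n : ℤ) - x)).toNat := hxp.pos
    have e2 : (ff a b e c x ((n : ℤ) - x)).natAbs = (ff a b e c x ((n : ℤ) - x)).toNat := by
      omega
    rw [e2]
    exact hxp
  have hc1 : (((Icc 1 N).filter (fun n : ℕ => AdmN a b e c n ∧
      ¬ ∃ x y : ℕ, 1 ≤ x ∧ 1 ≤ y ∧ x + y = n ∧ (ff a b e c x y).natAbs.Prime)).card : ℝ) ≤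
      S.card + ⌊(N : ℝ) / L⌋₊ := by
    have h1 := (card_le_card hsub).trans (card_union_le _ _)
    rw [Nat.card_Icc] at h1
    have : ⌊(N : ℝ) / L⌋₊ + 1 - 1 = ⌊(N : ℝ) / L⌋₊ := by omega
    rw [this] at h1
    exact_mod_cast h1
  have hc2 : (⌊(N : ℝ) / L⌋₊ : ℝ) ≤ ε / 2 * N := by
    refine (Nat.floor_le (by positivity)).trans ?_
    rw [div_le_iff₀ hL0]
    have h1 : 2 / ε ≤ L := by linarith
    rw [div_le_iff₀ hε] at h1
    nlinarith
  linarith

/-- RES -/
theorem t_RES (h : ∀ a c : ℤ, a ≠ 0 → c ≠ 0 → FinalN a c) :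
    ∀ a b e c : ℤ, 1 ≤ b → a ≠ b → c ≠ 0 → Res a b e c ∧ Cor a b e c := by
  intro a b e c hb hab hc
  have h1 : Res a b e c := res (h (a - b) c (sub_ne_zero.2 hab) hc) hb hab
  exact ⟨h1, cor h1 hb⟩

end

end Pool.Agent.N273.QN
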